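import Pool.Agent.W175.GF.Stm

/-! Project GF (helper175), GF-NL: the number theoretic corollary, from the global theorem. -/

set_option autoImplicit false

namespace Pool.Agent.W571.GF

open Complex Filter Topology Polynomial
open Pool.Agent.W175.GF

/-! ### algebra -/

section Alg

variable {F : Subfield ℂ}

/-- evaluation of polynomials in two variables over `F` -/
noncomputable def ev (t y : ℂ) : Polynomial (Polynomial F) →+* ℂ :=
  (evalEvalRingHom t y).comp (mapRingHom (mapRingHom (algebraMap F ℂ)))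

/-- the polynomial over `ℂ` -/
noncomputable def qc (Q : Polynomial (Polynomial F)) : Polynomial (Polynomial ℂ) :=
  Q.map (mapRingHom (algebraMap F ℂ))

theorem ev_eq (t y : ℂ) (Q : Polynomial (Polynomial F)) : ev t y Q = (qc Q).evalEval t y := rfl

theorem qc_ne {Q : Polynomial (Polynomial F)} (h : Q ≠ 0) : qc Q ≠ 0 := by
  unfold qc
  rw [Ne, Polynomial.map_eq_zero_iff]
  · exact h
  · rw [coe_mapRingHom]
    exact Polynomial.map_injective _ (algebraMap F ℂ).injective

theorem qc_derivative (Q : Polynomial (Polynomial F)) :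
    qc (derivative Q) = derivative (qc Q) := by
  unfold qc
  rw [derivative_map]

theorem ev_C (t y : ℂ) (q : Polynomial F) : ev t y (C q) = aeval t q := by
  rw [ev_eq]
  unfold qc
  rw [map_C, evalEval_C, coe_mapRingHom, eval_map, aeval_def]

/-- a polynomial which is nonzero and vanishes gives one whose derivative does not vanish -/
theorem min_poly {t y : ℂ} (ht : ¬ IsAlgebraic F t) (h : ∃ Q : Polynomial (Polynomial F), Q ≠ 0 ∧
    ev t y Q = 0) : ∃ Q : Polynomial (Polynomial F), ev t y Q = 0 ∧ ev t y (derivative Q) ≠ 0 := by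
  classical
  have hex : ∃ d : ℕ, ∃ Q : Polynomial (Polynomial F), Q ≠ 0 ∧ ev t y Q = 0 ∧ Q.natDegree = d := by
    obtain ⟨Q, h1, h2⟩ := h
    exact ⟨_, Q, h1, h2, rfl⟩
  obtain ⟨Q, hQ, hQ0, hQd⟩ := Nat.find_spec hex
  refine ⟨Q, hQ0, ?_⟩
  intro hcon
  by_cases hd : Q.natDegree = 0
  · rw [natDegree_eq_zero] at hd
    obtain ⟨q, rfl⟩ := hd
    rw [ev_C] at hQ0
    apply ht
    refine ⟨q, ?_, hQ0⟩
    rintro rfl
    apply hQ
    simp
  · have h1 : derivative Q ≠ 0 := fun h0 => hd (derivative_eq_zero.1 h0)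
    have h2 := natDegree_derivative_lt hd
    rw [hQd] at h2
    exact Nat.find_min hex h2 ⟨_, h1, hcon, rfl⟩

/-- a nonzero polynomial which vanishes for infinitely many values of the first variable -/
theorem alg_of_vanish {Q : Polynomial (Polynomial F)} (hQ : Q ≠ 0) {y : ℂ} {S : Set ℂ}
    (hS : S.Infinite) (h : ∀ t ∈ S, ev t y Q = 0) : IsAlgebraic F y := by
  classical
  set R : Polynomial ℂ := eval (C y) (qc Q) with hR
  have hR0 : R = 0 := by
    apply Polynomial.eq_zero_of_infinite_isRoot
    refine hS.mono ?_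
    intro t ht
    exact h t ht
  obtain ⟨k, hk⟩ : ∃ k, Q.coeff k ≠ 0 := by
    by_contra hcon
    push Not at hcon
    exact hQ (Polynomial.ext fun k => by rw [hcon k, coeff_zero])
  obtain ⟨m, hm⟩ : ∃ m, (Q.coeff k).coeff m ≠ 0 := by
    by_contra hcon
    push Not at hcon
    exact hk (Polynomial.ext fun k => by rw [hcon k, coeff_zero])
  have hk1 : k < Q.natDegree + 1 := by
    by_contra hcon
    exact hk (coeff_eq_zero_of_natDegree_lt (by omega))
  set q : Polynomial F := ∑ j ∈ Finset.range (Q.natDegree + 1), monomial j ((Q.coeff j).coeff m)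
    with hq
  have hqc : q.coeff k = (Q.coeff k).coeff m := by
    rw [hq, finsetSum_coeff]
    rw [Finset.sum_eq_single k]
    · rw [coeff_monomial, if_pos rfl]
    · intro j _ hj
      rw [coeff_monomial, if_neg hj]
    · intro hk'
      exact absurd (Finset.mem_range.2 hk1) hk'
  refine ⟨q, ?_, ?_⟩
  · intro h0
    rw [h0, coeff_zero] at hqc
    exact hm hqc.symm
  · have h1 : R.coeff m = aeval y q := by
      rw [hR]
      have h2 : (qc Q).natDegree < Q.natDegree + 1 := Nat.lt_succ_of_le natDegree_map_le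
      rw [eval_eq_sum_range' h2, finsetSum_coeff, hq, map_sum]
      apply Finset.sum_congr rfl
      intro j _
      rw [← C_pow, coeff_mul_C, aeval_monomial]
      unfold qc
      rw [coeff_map, coe_mapRingHom, coeff_map]
    rw [← h1, hR0, coeff_zero]

/-- algebraic dependence over `F` -/
theorem dep_of_trdeg {ι : Type} [Fintype ι] {K : IntermediateField F ℂ} {v : ι → ℂ}
    (hv : ∀ i, v i ∈ K) (h : Algebra.trdeg F K < Fintype.card ι) :
    ∃ P : MvPolynomial ι F, P ≠ 0 ∧ MvPolynomial.aeval v P = 0 := by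
  by_contra hcon
  push Not at hcon
  have h1 : AlgebraicIndependent F v := by
    rw [algebraicIndependent_iff]
    intro P hP
    by_contra h0
    exact hcon P h0 hP
  set v' : ι → K := fun i => ⟨v i, hv i⟩ with hv'
  have h2 : AlgebraicIndependent F v' := by
    rw [← AlgHom.algebraicIndependent_iff K.val K.val.injective]
    exact h1
  have h3 := h2.cardinalMk_le_trdeg
  rw [Cardinal.mk_fintype] at h3
  exact absurd h (not_lt.2 h3)

theorem ev_option (t y : ℂ) (P : MvPolynomial (Option Unit) F) :
    ev t y (MvPolynomial.uniqueAlgEquiv _ Unit (MvPolynomial.optionEquivRight F Unit P)) =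
      MvPolynomial.aeval (fun o : Option Unit => o.elim t fun _ => y) P := by
  have h : ((ev t y).comp ((MvPolynomial.uniqueAlgEquiv (Polynomial F) Unit).toRingEquiv.toRingHom.comp
      (MvPolynomial.optionEquivRight F Unit).toRingEquiv.toRingHom)) =
      (MvPolynomial.aeval (R := F) (fun o : Option Unit => o.elim t fun _ => y)).toRingHom := by
    apply MvPolynomial.ringHom_ext
    · intro r
      simp [ev_C]
    · intro i
      rcases i with _ | i
      · simp [ev_C]
      · simp [ev_eq, qc]
  exact RingHom.congr_fun h P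

/-- relation polynomials -/
noncomputable def rel {n : ℕ} (P : MvPolynomial (Fin n) (Polynomial F)) (t : ℂ) (g : Fin n → ℂ) :
    ℂ := MvPolynomial.eval₂ (aeval t : Polynomial F →ₐ[F] ℂ).toRingHom g P

theorem rel_option {n : ℕ} (P : MvPolynomial (Option (Fin n)) F) (t : ℂ) (g : Fin n → ℂ) :
    rel (MvPolynomial.optionEquivRight F (Fin n) P) t g =
      MvPolynomial.aeval (fun o : Option (Fin n) => o.elim t g) P := by
  have h : ((MvPolynomial.eval₂Hom (aeval t : Polynomial F →ₐ[F] ℂ).toRingHom g).comp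
      (MvPolynomial.optionEquivRight F (Fin n)).toRingEquiv.toRingHom) =
      (MvPolynomial.aeval (R := F) (fun o : Option (Fin n) => o.elim t g)).toRingHom := by
    apply MvPolynomial.ringHom_ext
    · intro r
      simp
    · intro i
      rcases i with _ | i
      · simp
      · simp
  exact RingHom.congr_fun h P

theorem rel_sum {n : ℕ} (P : MvPolynomial (Fin n) (Polynomial F)) (t : ℂ) (g : Fin n → ℂ) :
    rel P t g = ∑ k ∈ P.support, aeval t (P.coeff k) * ∏ i, g i ^ k i := by
  unfold rel
  rw [MvPolynomial.eval₂_eq']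
  rfl

theorem countable_poly (R : Type) [CommRing R] [Countable R] : Countable (Polynomial R) := by
  rw [← Cardinal.mk_le_aleph0_iff]
  exact Polynomial.cardinalMk_le_max.trans (max_le (Cardinal.mk_le_aleph0_iff.2 inferInstance) le_rfl)

theorem countable_mv (n : ℕ) (R : Type) [CommRing R] [Countable R] :
    Countable (MvPolynomial (Fin n) R) := by
  rw [← Cardinal.mk_le_aleph0_iff]
  refine MvPolynomial.cardinalMk_le_max.trans (max_le (max_le ?_ ?_) le_rfl)
  · exact Cardinal.mk_le_aleph0_iff.2 inferInstance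
  · exact Cardinal.mk_le_aleph0_iff.2 inferInstance

end Alg

/-! ### analysis -/

theorem evalEval_contDiff (Q : Polynomial (Polynomial ℂ)) :
    ContDiff ℂ ⊤ (fun v : ℂ × ℂ => Q.evalEval v.1 v.2) := by
  have h : (fun v : ℂ × ℂ => Q.evalEval v.1 v.2) = fun v : ℂ × ℂ =>
      ∑ k ∈ Finset.range (Q.natDegree + 1), (Q.coeff k).eval v.1 * v.2 ^ k := by
    funext v
    rw [evalEval, eval_eq_sum_range (p := Q) (C v.2), eval_finsetSum]
    apply Finset.sum_congr rfl
    intro k _
    rw [eval_mul, eval_pow, eval_C]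
  rw [h]
  apply ContDiff.sum
  intro k _
  have h1 : ContDiff ℂ ⊤ (fun x : ℂ => (Q.coeff k).eval x) := by
    have := Polynomial.contDiff_aeval (𝕜 := ℂ) (Q.coeff k) ⊤
    simpa only [coe_aeval_eq_eval] using this
  exact (h1.comp contDiff_fst).mul (contDiff_snd.pow k)

theorem evalEval_hasDerivAt (Q : Polynomial (Polynomial ℂ)) (t y : ℂ) :
    HasDerivAt (fun y : ℂ => Q.evalEval t y) ((derivative Q).evalEval t y) y := by
  have h := (Q.map (evalRingHom t)).hasDerivAt y
  rw [derivative_map] at h
  have e : ∀ (R : Polynomial (Polynomial ℂ)) (z : ℂ), (R.map (evalRingHom t)).eval z =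
      R.evalEval t z := fun R z => map_evalRingHom_eval t z R
  rw [e] at h
  refine h.congr_of_eventuallyEq (Eventually.of_forall fun z => ?_)
  exact (e Q z).symm

/-- the implicit function theorem -/
theorem ift (Q : Polynomial (Polynomial ℂ)) {a b : ℂ} (h0 : Q.evalEval a b = 0)
    (h1 : (derivative Q).evalEval a b ≠ 0) : ∃ y : ℂ → ℂ, AnalyticAt ℂ y a ∧ y a = b ∧
      (∀ᶠ t in 𝓝 a, Q.evalEval t (y t) = 0) ∧
      ∀ᶠ v : ℂ × ℂ in 𝓝 (a, b), Q.evalEval v.1 v.2 = 0 → v.2 = y v.1 := by
  set f : ℂ × ℂ → ℂ := fun v => Q.evalEval v.1 v.2 with hf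
  have hcd : ContDiffAt ℂ ⊤ f (a, b) := (evalEval_contDiff Q).contDiffAt
  have hd : HasFDerivAt f (fderiv ℂ f (a, b)) (a, b) :=
    (hcd.differentiableAt (by simp)).hasFDerivAt
  set c := (derivative Q).evalEval a b with hc
  have h2 : (fderiv ℂ f (a, b)) (0, 1) = c := by
    have h3 : HasDerivAt (fun y : ℂ => ((a, y) : ℂ × ℂ)) (0, 1) b :=
      (hasDerivAt_const b a).prodMk (hasDerivAt_id b)
    have h4 := hd.comp_hasDerivAt b h3
    exact h4.unique (evalEval_hasDerivAt Q a b)
  have hinv : (fderiv ℂ f (a, b) ∘L .inr ℂ ℂ ℂ).IsInvertible := by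
    refine ⟨ContinuousLinearEquiv.smulLeft (Units.mk0 c h1), ?_⟩
    ext
    simp [h2]
  have hn : (⊤ : WithTop ℕ∞) ≠ 0 := by simp
  refine ⟨hcd.implicitFunction hn hinv, ?_, hcd.implicitFunction_apply_self hn hinv, ?_, ?_⟩
  · exact (hcd.contDiffAt_implicitFunction hn hinv).analyticAt
  · filter_upwards [hcd.eventually_apply_implicitFunction hn hinv] with t ht
    have e : f (a, b) = 0 := h0
    rw [e] at ht
    exact ht
  · filter_upwards [hcd.eventually_apply_eq_iff_implicitFunction hn hinv] with v hv h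
    have e : f (a, b) = 0 := h0
    rw [e] at hv
    exact (hv.1 h).symm

theorem countable_of_isolated {X : Type*} [TopologicalSpace X] [SecondCountableTopology X]
    (S : Set X) (h : ∀ z ∈ S, ∀ᶠ z' in 𝓝 z, z' ∈ S → z' = z) : S.Countable := by
  have : DiscreteTopology S := by
    rw [discreteTopology_subtype_iff]
    intro z hz
    rw [inf_principal_eq_bot]
    have h1 := h z hz
    rw [mem_nhdsWithin_iff_eventually]
    filter_upwards [h1] with x hx hxz hxS
    exact hxz (hx hxS)
  exact (TopologicalSpace.separableSpace_iff_countable (α := S)).1 inferInstance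

/-! ### the main argument -/

section Main

variable {F : Subfield ℂ}

/-- the tuples with given relations -/
def ZS {n : ℕ} (P : MvPolynomial (Fin (n + 1)) (Polynomial F))
    (Q : Fin (n + 1) → Polynomial (Polynomial F)) : Set (Fin (n + 1) → ℂ) :=
  {z | (∀ i, ¬ IsAlgebraic F (z i)) ∧ (∀ i j, i ≠ j → ∀ p q : ℚ, z i ≠ p * z j + q) ∧
    rel P (z 0) (fun i => (Gamma (z i))⁻¹) = 0 ∧
    ∀ i, ev (z 0) (z i) (Q i) = 0 ∧ ev (z 0) (z i) (derivative (Q i)) ≠ 0}

theorem isolated (h : S_GT) {n : ℕ} {P : MvPolynomial (Fin (n + 1)) (Polynomial F)} (hP : P ≠ 0)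
    (Q : Fin (n + 1) → Polynomial (Polynomial F)) {z : Fin (n + 1) → ℂ} (hz : z ∈ ZS P Q) :
    ∀ᶠ z' in 𝓝 z, z' ∈ ZS P Q → z' = z := by
  obtain ⟨hz1, hz2, hz3, hz4⟩ := hz
  set a := z 0 with ha
  have hift : ∀ i, ∃ y : ℂ → ℂ, AnalyticAt ℂ y a ∧ y a = z i ∧
      (∀ᶠ t in 𝓝 a, (qc (Q i)).evalEval t (y t) = 0) ∧
      ∀ᶠ v : ℂ × ℂ in 𝓝 (a, z i), (qc (Q i)).evalEval v.1 v.2 = 0 → v.2 = y v.1 := by
    intro i
    obtain ⟨h1, h2⟩ := hz4 i
    rw [ev_eq] at h1 h2
    rw [qc_derivative] at h2
    exact ift _ h1 h2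
  choose y hya hy0 hyQ hyU using hift
  have hQne : ∀ i, Q i ≠ 0 := by
    intro i h0
    apply (hz4 i).2
    rw [h0, derivative_zero, map_zero]
  -- the analytic relation
  set G : ℂ → ℂ := fun t => rel P t (fun i => (Gamma (y i t))⁻¹) with hG
  have hGa : AnalyticAt ℂ G a := by
    have e : G = fun t => ∑ k ∈ P.support, aeval t (P.coeff k) *
        ∏ i, (Gamma (y i t))⁻¹ ^ k i := by
      funext t
      exact rel_sum P t _
    rw [e]
    apply Finset.analyticAt_fun_sum
    intro k _
    apply AnalyticAt.mul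
    · have h1 : Differentiable ℂ (fun t : ℂ => aeval t (P.coeff k)) :=
        Polynomial.differentiable_aeval _
      exact h1.analyticAt a
    · apply Finset.analyticAt_fun_prod
      intro i _
      apply AnalyticAt.pow
      exact (differentiable_one_div_Gamma.analyticAt (y i a)).comp (hya i)
  have hcont0 : Tendsto (fun z' : Fin (n + 1) → ℂ => z' 0) (𝓝 z) (𝓝 a) :=
    (continuous_apply 0).tendsto z
  rcases hGa.eventually_eq_zero_or_eventually_ne_zero with hG0 | hG0
  · -- the relation is identical: contradiction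
    exfalso
    have hev : ∀ᶠ t in 𝓝 a, G t = 0 ∧ (∀ i, AnalyticAt ℂ (y i) t) ∧
        ∀ i, (qc (Q i)).evalEval t (y i t) = 0 := by
      refine hG0.and (Filter.Eventually.and ?_ ?_)
      · exact Filter.eventually_all.2 fun i => (hya i).eventually_analyticAt
      · exact Filter.eventually_all.2 hyQ
    obtain ⟨ε, hε, hball⟩ := Metric.eventually_nhds_iff_ball.1 hev
    set Ω := Metric.ball a ε with hΩ
    have haΩ : a ∈ Ω := Metric.mem_ball_self hε
    have hinf : Ω.Infinite := by
      have : Ω ∈ 𝓝 a := Metric.ball_mem_nhds a hε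
      exact infinite_of_mem_nhds a this
    classical
    set N : Finset (Fin (n + 1) → ℕ) := P.support.map ⟨DFunLike.coe, DFunLike.coe_injective⟩
      with hN
    set c : (Fin (n + 1) → ℕ) → ℂ → ℂ :=
      fun k t => aeval t (P.coeff (Finsupp.equivFunOnFinite.symm k)) with hc
    have hck : ∀ k, Differentiable ℂ (c k) := fun k => Polynomial.differentiable_aeval _
    have hconst : ∀ v : ℂ, ¬ ∀ t ∈ Ω, id t = v := by
      intro v hv
      apply hinf
      apply Set.Finite.subset (Set.finite_singleton v)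
      intro t ht
      exact hv t ht
    have hyc : ∀ i, ∀ v : ℂ, ¬ ∀ t ∈ Ω, y i t = v := by
      intro i v hv
      have hvz : v = z i := by rw [← hv a haΩ, hy0]
      apply hz1 i
      apply alg_of_vanish (hQne i) hinf
      intro t ht
      rw [ev_eq, ← hvz, ← hv t ht]
      exact (hball t ht).2.2 i
    obtain ⟨k, hk⟩ : P.support.Nonempty :=
      Finset.nonempty_iff_ne_empty.2 fun h0 => hP (MvPolynomial.support_eq_empty.1 h0)
    have hres := h (Fin (n + 1)) Ω id y N c Metric.isOpen_ball
      (convex_ball a ε).isPreconnected ⟨a, haΩ⟩ differentiableOn_id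
      (fun i t ht => ((hball t ht).2.1 i).differentiableAt.differentiableWithinAt)
      (fun k _ => (hck k).differentiableOn) hconst hyc
      (fun i => ⟨qc (Q i), qc_ne (hQne i), fun t ht => (hball t ht).2.2 i⟩)
      (fun k _ => ⟨X - C ((P.coeff (Finsupp.equivFunOnFinite.symm k)).map (algebraMap F ℂ)),
        X_sub_C_ne_zero _, fun t ht => by
          rw [evalEval_sub, evalEval_X, evalEval_C, hc]
          simp only [id]
          rw [eval_map, ← aeval_def, sub_self]⟩)
      (fun i j hij p q hpq => hz2 i j hij p q (by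
        have := hpq a haΩ
        rwa [hy0, hy0] at this))
      (fun t ht => by
        have h1 := (hball t ht).1
        rw [hG] at h1
        simp only at h1
        rw [rel_sum] at h1
        rw [hN, Finset.sum_map]
        simp only [Function.Embedding.coeFn_mk, hc]
        convert h1 using 3
        · congr 2
          ext i
          simp
        )
      (DFunLike.coe k) (by
        rw [hN, Finset.mem_map]
        exact ⟨k, hk, rfl⟩) a haΩ
    apply hz1 0
    refine ⟨P.coeff k, MvPolynomial.mem_support_iff.1 hk, ?_⟩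
    rw [hc] at hres
    simp only at hres
    have e : (Finsupp.equivFunOnFinite.symm (DFunLike.coe k) : Fin (n + 1) →₀ ℕ) = k := by
      ext i
      simp
    rw [e] at hres
    exact hres
  · -- isolated zeros
    have h1 : ∀ᶠ t in 𝓝 a, t ≠ a → G t ≠ 0 := eventually_nhdsWithin_iff.1 hG0
    have h2 : ∀ i, ∀ᶠ z' : Fin (n + 1) → ℂ in 𝓝 z,
        (qc (Q i)).evalEval (z' 0) (z' i) = 0 → z' i = y i (z' 0) := by
      intro i
      have ht : Tendsto (fun z' : Fin (n + 1) → ℂ => (z' 0, z' i)) (𝓝 z) (𝓝 (a, z i)) :=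
        ((continuous_apply 0).prodMk (continuous_apply i)).tendsto z
      exact ht.eventually (hyU i)
    filter_upwards [hcont0.eventually h1, Filter.eventually_all.2 h2] with z' k1 k2 hz'
    obtain ⟨g1, g2, g3, g4⟩ := hz'
    have k3 : ∀ i, z' i = y i (z' 0) := fun i => k2 i (g4 i).1
    have k4 : G (z' 0) = 0 := by
      rw [hG]
      simp only
      rw [← g3]
      congr 1
      funext i
      rw [← k3 i]
    have k5 : z' 0 = a := by
      by_contra hne
      exact k1 hne k4
    funext i
    rw [k3 i, k5, hy0]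

theorem nl (h : S_GT) : S_NL := by
  intro F hF n
  have : Countable F := hF.to_subtype
  rcases n with _ | n
  · exact Set.Subsingleton.countable (fun x _ y _ => Subsingleton.elim x y)
  have c1 : Countable (Polynomial F) := countable_poly F
  have c2 : Countable (Polynomial (Polynomial F)) := countable_poly _
  have c3 : Countable (MvPolynomial (Fin (n + 1)) (Polynomial F)) := countable_mv _ _
  have hsub : {z : Fin (n + 1) → ℂ | (∀ i, ¬ IsAlgebraic F (z i)) ∧
    Algebra.trdeg F (IntermediateField.adjoin F (Set.range z)) ≤ 1 ∧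
    (∀ i j, i ≠ j → ∀ p q : ℚ, z i ≠ p * z j + q) ∧
    Algebra.trdeg F (IntermediateField.adjoin F
      (Set.range z ∪ Set.range fun i => Gamma (z i))) < ((n + 1 : ℕ) : Cardinal) + 1} ⊆
      ⋃ (P : {P : MvPolynomial (Fin (n + 1)) (Polynomial F) // P ≠ 0})
        (Q : Fin (n + 1) → Polynomial (Polynomial F)), ZS P.1 Q := by
    rintro z ⟨h1, h2, h3, h4⟩
    -- the relation
    obtain ⟨P₀, hP₀, hP₀'⟩ := dep_of_trdeg (K := IntermediateField.adjoin F
      (Set.range z ∪ Set.range fun i => Gamma (z i)))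
      (v := fun o : Option (Fin (n + 1)) => o.elim (z 0) fun i => (Gamma (z i))⁻¹) (by
        rintro (_ | i)
        · exact IntermediateField.subset_adjoin _ _ (Or.inl ⟨0, rfl⟩)
        · exact inv_mem (IntermediateField.subset_adjoin _ _ (Or.inr ⟨i, rfl⟩))) (by
        rw [Fintype.card_option, Fintype.card_fin]
        exact_mod_cast h4)
    -- the polynomials
    have hQ : ∀ i, ∃ Q : Polynomial (Polynomial F), ev (z 0) (z i) Q = 0 ∧
        ev (z 0) (z i) (derivative Q) ≠ 0 := by
      intro i
      apply min_poly (h1 0)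
      by_cases hi : i = 0
      · subst hi
        refine ⟨X - C X, X_sub_C_ne_zero _, ?_⟩
        rw [map_sub, ev_C, aeval_X, ev_eq]
        unfold qc
        rw [map_X, evalEval_X, sub_self]
      · obtain ⟨R, hR, hR'⟩ := dep_of_trdeg (K := IntermediateField.adjoin F (Set.range z))
          (v := fun o : Option Unit => o.elim (z 0) fun _ => z i) (by
            rintro (_ | _)
            · exact IntermediateField.subset_adjoin _ _ ⟨0, rfl⟩
            · exact IntermediateField.subset_adjoin _ _ ⟨i, rfl⟩) (by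
            rw [Fintype.card_option, Fintype.card_unit]
            refine lt_of_le_of_lt h2 ?_
            norm_num)
        refine ⟨_, ?_, (ev_option (z 0) (z i) R).trans hR'⟩
        intro h0
        apply hR
        have := (MvPolynomial.uniqueAlgEquiv (Polynomial F) Unit).injective
          (h0.trans (map_zero _).symm)
        exact (MvPolynomial.optionEquivRight F Unit).injective (this.trans (map_zero _).symm)
    choose Q hQ0 hQ1 using hQ
    rw [Set.mem_iUnion]
    refine ⟨⟨MvPolynomial.optionEquivRight F (Fin (n + 1)) P₀, ?_⟩, ?_⟩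
    · intro h0
      exact hP₀ ((MvPolynomial.optionEquivRight F (Fin (n + 1))).injective
        (h0.trans (map_zero _).symm))
    rw [Set.mem_iUnion]
    refine ⟨Q, h1, h3, ?_, fun i => ⟨hQ0 i, hQ1 i⟩⟩
    rw [rel_option]
    exact hP₀'
  refine Set.Countable.mono (fun z hz => hsub ?_) (Set.countable_iUnion fun P =>
    Set.countable_iUnion fun Q => countable_of_isolated _ fun z hz => isolated h P.2 Q hz)
  obtain ⟨h1, h2, h3, h4⟩ := hz
  exact ⟨h1, h2, h3, h4⟩

end Main

end Pool.Agent.W571.GF
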